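import Pool.Agent.Lib.MP_b5021c_nt.W.H80.Win

/-!
# MP_b5021c_nt, all `θ`: row I3, the cardioid for a ray with `u = 1`

`v = z f / Q`, `|1 - v| ≥ 2 |v|` on the circle (a disc inside the cardioid). Three Schur steps for
`(3 v + 1)/2 * (a - z)/(1 - a z)`.
-/

namespace Pool.Agent.B5.Nr.Sch

open Polynomial

/-- From the disc condition to the Schur pair. -/
theorem car_norm {Q A : ℂ} (h : 2 * ‖A‖ ≤ ‖Q - A‖) : ‖Q + 3 * A‖ ≤ 2 * ‖Q‖ := by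
  have h1 : (2 * ‖A‖) ^ 2 ≤ ‖Q - A‖ ^ 2 :=
    pow_le_pow_left₀ (mul_nonneg zero_le_two (norm_nonneg _)) h 2
  have h2 : ‖Q + 3 * A‖ ^ 2 ≤ (2 * ‖Q‖) ^ 2 := by
    rw [mul_pow] at h1 ⊢
    rw [Complex.sq_norm, Complex.sq_norm] at h1 ⊢
    rw [Complex.normSq_apply, Complex.normSq_apply] at h1 ⊢
    simp only [Complex.sub_re, Complex.sub_im, Complex.add_re, Complex.add_im, Complex.mul_re,
      Complex.mul_im, Complex.re_ofNat, Complex.im_ofNat, zero_mul, sub_zero, add_zero] at h1 ⊢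
    nlinarith
  exact le_of_sq_le_sq h2 (mul_nonneg zero_le_two (norm_nonneg _))

/-- Monotonicity of the Schur step. -/
theorem mono_step {g x y p : ℝ} (hg : |g| ≤ 1) (hp : 0 < p) (hxy : x ≤ y) (hx : 0 < 1 - g * x)
    (hy : 0 < 1 - g * y) : (x - g) / (p * (1 - g * x)) ≤ (y - g) / (p * (1 - g * y)) := by
  rw [div_le_div_iff₀ (mul_pos hp hx) (mul_pos hp hy)]
  have hg2 : 0 ≤ 1 - g ^ 2 := by
    have := abs_le.mp hg
    nlinarith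
  nlinarith [mul_nonneg hp.le (mul_nonneg (sub_nonneg.mpr hxy) hg2)]

/-- Three Schur steps. `g1`, `r'`, .. as in the text. -/
theorem Loc.car3 {Q f : ℤ[X]} {a : ℝ} (h : Loc Q f a) (hu : f.coeff 0 = 1)
    (hcar : ∀ z : ℂ, ‖z‖ = 1 → ‖aeval z Q + 3 * (z * aeval z f)‖ ≤ 2 * ‖aeval z Q‖) {p : ℝ}
    (hap : a < p) (hp1 : p ≤ 1) (hV : (aeval p Q : ℝ) + p * aeval p f ≤ 0) {n : ℤ}
    (hn : n = f.coeff 1 - Q.coeff 1) {g1 : ℝ}
    (hg1 : g1 * (4 - a ^ 2) = 2 * (a ^ 2 + 3 * a - 1)) (hg1l : |g1| < 1) :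
    ∃ r r1 r2 g2 : ℝ, |r| ≤ 1 ∧ r ≤ (p - a) / (1 - a * p) ∧
      r1 = (r - a / 2) / (p * (1 - a / 2 * r)) ∧ |r1| ≤ 1 ∧
      r2 = (r1 - g1) / (p * (1 - g1 * r1)) ∧ |r2| ≤ 1 ∧ |g2| ≤ 1 ∧
      |r2 - g2| ≤ p * (1 - g2 * r2) ∧
      g2 * (1 - g1 ^ 2) = 2 * a * (3 * n - 3 * (a⁻¹ - a) - a * (a⁻¹ - a)) / (4 - a ^ 2) +
        a / 2 * g1 ^ 2 := by
  obtain ⟨s, hs, hsp, s0, s1, s2, hneg⟩ := h.sp
  have ha := h.a0
  have ha1 := h.a1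
  have ha0 : a ≠ 0 := ha.ne'
  have hp0 : 0 < p := ha.trans hap
  have hx : |p| ≤ 1 := by rw [abs_of_pos hp0]; exact hp1
  have h4a : 0 < 4 - a ^ 2 := by nlinarith
  set q : ℝ[X] := Q.map (Int.castRingHom ℝ) with hq
  set φ : ℝ[X] := f.map (Int.castRingHom ℝ) with hφ
  set F : ℝ[X] := -(q + C 3 * (X * φ)) with hF
  set R : ℝ[X] := C 2 * (s - C a * (X * s)) with hR
  have hRs : s * (1 - C a * X) = s - C a * (X * s) := by ring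
  have hRe : ∀ z : ℂ, aeval z R = 2 * aeval z (s * (1 - C a * X)) := by
    intro z
    rw [hR, hRs, map_mul]
    simp
  have hFe : ∀ z : ℂ, aeval z F = -(aeval z Q + 3 * (z * aeval z f)) := by
    intro z
    rw [hF, map_neg, map_add, map_mul, map_mul, hq, hφ, aeval_map_real, aeval_map_real]
    simp
  have hsp0 : SP F R := by
    refine SP.of_circle (fun z hz h0 => ?_) (fun z hz => ?_)
    · rw [hRe] at h0
      rcases mul_eq_zero.mp h0 with h1 | h1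
      · norm_num at h1
      · exact hsp.nz z hz h1
    · rw [hRe, hFe, norm_neg, norm_mul]
      have h1 := hcar z hz
      have h2 : ‖aeval z (s * (1 - C a * X))‖ = ‖aeval z Q‖ := by
        rw [← aeval_map_real, ← hq, hs, map_mul, map_mul, norm_mul, norm_mul, mul_comm]
        congr 1
        have h1 : aeval z (X - C a) = z - a := by simp
        have h2 : aeval z (1 - C a * X) = 1 - a * z := by simp
        rw [h1, h2, circ a z hz]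
      rw [h2]
      simpa using h1
  clear_value q φ F R
  have q0 : q.coeff 0 = 1 := by rw [hq, coeff_map, h.q0]; simp
  have q1 : q.coeff 1 = Q.coeff 1 := by rw [hq, coeff_map]; rfl
  have q2 : q.coeff 2 = Q.coeff 2 := by rw [hq, coeff_map]; rfl
  have f0 : φ.coeff 0 = 1 := by rw [hφ, coeff_map, hu]; simp
  have f1 : φ.coeff 1 = f.coeff 1 := by rw [hφ, coeff_map]; rfl
  have F0 : F.coeff 0 = -1 := by
    rw [hF, coeff_neg, coeff_add, coeff_C_mul, coeff_X_mul_zero, q0]; ring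
  have F1c : F.coeff 1 = -(Q.coeff 1 + 3) := by
    rw [hF, coeff_neg, coeff_add, coeff_C_mul, coeff_X_mul, q1, f0]; ring
  have F2c : F.coeff 2 = -(Q.coeff 2 + 3 * f.coeff 1) := by
    rw [hF, coeff_neg, coeff_add, coeff_C_mul, coeff_X_mul, q2, f1]
  have R0 : R.coeff 0 = -(2 * a⁻¹) := by
    rw [hR, coeff_C_mul, coeff_sub, coeff_C_mul, coeff_X_mul_zero, s0]; ring
  have R1c : R.coeff 1 = 2 * (s.coeff 1 - a * s.coeff 0) := by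
    rw [hR, coeff_C_mul, coeff_sub, coeff_C_mul, coeff_X_mul]
  have R2c : R.coeff 2 = 2 * (s.coeff 2 - a * s.coeff 1) := by
    rw [hR, coeff_C_mul, coeff_sub, coeff_C_mul, coeff_X_mul]
  -- step 0
  have hg0 : F.coeff 0 = a / 2 * R.coeff 0 := by
    rw [F0, R0]; field_simp
  have hga : |a / 2| < 1 := by rw [abs_of_pos (by linarith)]; linarith
  obtain ⟨G1, hG1⟩ := exists_quot F R hg0
  have hsp1 := hsp0.step hga hG1
  set R1 : ℝ[X] := R - C (a / 2) * F with hR1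
  have G10 : G1.coeff 0 = a⁻¹ - a - 3 := by
    have := congrArg (fun q => q.coeff 1) hG1
    simp only [coeff_X_mul, coeff_sub, coeff_C_mul] at this
    rw [this, F1c, R1c, s1, s0]
    field_simp
    ring
  have G11 : G1.coeff 1 = -(Q.coeff 2 + 3 * f.coeff 1) - a * (s.coeff 2 - a * s.coeff 1) := by
    have := congrArg (fun q => q.coeff 2) hG1
    simp only [coeff_X_mul, coeff_sub, coeff_C_mul] at this
    rw [this, F2c, R2c]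
    ring
  have R10 : R1.coeff 0 = -((4 - a ^ 2) / (2 * a)) := by
    rw [hR1, coeff_sub, coeff_C_mul, R0, F0]; field_simp; ring
  have R11 : R1.coeff 1 = 2 * (s.coeff 1 - a * s.coeff 0) + a / 2 * (Q.coeff 1 + 3) := by
    rw [hR1, coeff_sub, coeff_C_mul, R1c, F1c]; ring
  have hg1e : G1.coeff 0 = g1 * R1.coeff 0 := by
    rw [G10, R10]
    have h1 : g1 * -((4 - a ^ 2) / (2 * a)) = -(g1 * (4 - a ^ 2)) / (2 * a) := by ring
    rw [h1, hg1]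
    field_simp
    ring
  have hRp := (hsp0.ev hx).1
  set r := F.eval p / R.eval p with hr
  have hr1 := hsp0.ratio hx
  have h1ap : 0 < 1 - a * p := by nlinarith
  have hrb : r ≤ (p - a) / (1 - a * p) := by
    have e1 : R.eval p = 2 * (s.eval p * (1 - a * p)) := by
      rw [hR]; simp; ring
    have e2 : (aeval p Q : ℝ) = (p - a) * s.eval p := by
      have h1 : (aeval p Q : ℝ) = q.eval p := by
        rw [hq, eval_map]; rfl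
      rw [h1, hs, eval_mul]; simp
    have e3 : (aeval p f : ℝ) = φ.eval p := by
      rw [hφ, eval_map]; rfl
    have e4 : F.eval p = -((p - a) * s.eval p + 3 * (p * φ.eval p)) := by
      rw [hF, hs]; simp
    have hsn := hneg p hp0.le hp1
    rw [e2, e3] at hV
    have hRn : R.eval p < 0 := by
      rw [e1]; nlinarith [mul_neg_of_neg_of_pos hsn h1ap]
    rw [hr, le_div_iff₀ h1ap]
    have h2 : F.eval p / R.eval p * (1 - a * p) * R.eval p = F.eval p * (1 - a * p) := by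
      field_simp
    by_contra hcon
    push Not at hcon
    have h3 := mul_lt_mul_of_neg_right hcon hRn
    rw [h2, e1, e4] at h3
    nlinarith [mul_nonneg_of_nonpos_of_nonpos hV (by linarith : -(1 - a * p) ≤ 0)]
  have h1ar : 0 < 1 - a / 2 * r := by
    have := abs_le.mp hr1
    nlinarith
  have hR1p := (hsp1.ev hx).1
  have hval1 := SP.step_val hG1 hRp hp0.ne' (by rw [← hr]; exact h1ar.ne')
  rw [← hr] at hval1
  have hratio1 := hsp1.ratio hx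
  rw [hval1] at hratio1
  set r1 := (r - a / 2) / (p * (1 - a / 2 * r)) with hr1d
  obtain ⟨G2, hG2⟩ := exists_quot G1 R1 hg1e
  have hsp2 := hsp1.step hg1l hG2
  set R2 : ℝ[X] := R1 - C g1 * G1 with hR2
  have G20 : G2.coeff 0 = G1.coeff 1 - g1 * R1.coeff 1 := by
    have := congrArg (fun q => q.coeff 1) hG2
    simpa only [coeff_X_mul, coeff_sub, coeff_C_mul] using this
  have R20 : R2.coeff 0 = R1.coeff 0 * (1 - g1 ^ 2) := by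
    rw [hR2, coeff_sub, coeff_C_mul, hg1e]
    ring
  have hpos : 0 < 1 - g1 ^ 2 := by
    have := abs_lt.mp hg1l
    nlinarith
  have hR10 : R1.coeff 0 ≠ 0 := hsp1.coeff_le.1
  have hR20 : R2.coeff 0 ≠ 0 := by
    rw [R20]
    exact mul_ne_zero hR10 hpos.ne'
  set g := G2.coeff 0 / R2.coeff 0 with hg
  have hge : G2.coeff 0 = g * R2.coeff 0 := by rw [hg, div_mul_cancel₀ _ hR20]
  have hgle : |g| ≤ 1 := by
    obtain ⟨h1, h2⟩ := hsp2.coeff_le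
    rw [hg, abs_div, div_le_one (abs_pos.mpr h1)]
    exact h2
  have hval2 := SP.step_val hG2 hR1p hp0.ne' (by
    rw [hval1]
    have h1 : |g1 * r1| < 1 := by
      rw [abs_mul]
      calc |g1| * |r1| ≤ |g1| * 1 := mul_le_mul_of_nonneg_left hratio1 (abs_nonneg g1)
        _ < 1 := by rw [mul_one]; exact hg1l
    have := (abs_lt.mp h1).2
    intro h2
    linarith)
  rw [hval1] at hval2
  have hratio2 := hsp2.ratio hx
  have hpick2 := hsp2.pick hge hp0.le hp1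
  rw [hval2] at hratio2 hpick2
  refine ⟨r, r1, _, g, hr1, hrb, hr1d, hratio1, rfl, hratio2, hgle, hpick2, ?_⟩
  have hgd : g * (1 - g1 ^ 2) = G2.coeff 0 / R1.coeff 0 := by
    rw [hg, R20]
    field_simp
  rw [hgd, G20, G11, R11, R10, s2, s1, s0]
  have hnr : (n : ℝ) = f.coeff 1 - Q.coeff 1 := by rw [hn]; push_cast; ring
  have hf1 : ((f.coeff 1 : ℤ) : ℝ) = n + Q.coeff 1 := by linarith
  rw [hf1]
  have hg1' : g1 = 2 * (a ^ 2 + 3 * a - 1) / (4 - a ^ 2) := by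
    rw [← hg1, mul_div_assoc, div_self h4a.ne', mul_one]
  rw [hg1']
  field_simp
  ring

/-! ## Numbers -/

/-- The final inequality of three Schur steps. -/
theorem car_num {a p g1 r r1 r2 g2 k : ℝ} (ha : 0 < a) (ha2 : a ≤ 1 / 2) (hap : a < p)
    (hp1 : p ≤ 1) (hg1 : g1 * (4 - a ^ 2) = 2 * (a ^ 2 + 3 * a - 1)) (hg1l : |g1| < 1)
    (hr : |r| ≤ 1) (hrb : r ≤ (p - a) / (1 - a * p)) (hr1 : r1 = (r - a / 2) / (p * (1 - a / 2 * r)))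
    (hr1b : |r1| ≤ 1) (hr2 : r2 = (r1 - g1) / (p * (1 - g1 * r1))) (hg2 : |g2| ≤ 1)
    (hpk : |r2 - g2| ≤ p * (1 - g2 * r2))
    (hk : 2 * a * k / (4 - a ^ 2) + a / 2 * g1 ^ 2 ≤ g2 * (1 - g1 ^ 2)) :
    (2 * k * (4 - a ^ 2) + 2 * (a ^ 2 + 3 * a - 1) ^ 2) * a * p *
        (2 * (2 + a ^ 2) * p - 3 * a * (1 + p ^ 2)) ≤
      3 * (2 + 6 * a + a ^ 2) * (-(a * (4 - a ^ 2)) * (1 + p ^ 4) +
        (2 + a ^ 2) * (2 - 2 * a - a ^ 2) * (p + p ^ 3) + 4 * a * (a ^ 2 + 3 * a - 1) * p ^ 2) := by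
  have hp0 : 0 < p := ha.trans hap
  have h4 : 0 < 4 - a ^ 2 := by nlinarith
  have h22 : 0 < 2 - 2 * a - a ^ 2 := by nlinarith
  have hap1 : 0 < 1 - a * p := by nlinarith
  have hw3 : 0 < 2 + a ^ 2 - 3 * (a * p) := by nlinarith
  set h := a ^ 2 + 3 * a - 1 with hh
  set m := (2 + a ^ 2) * (2 - 2 * a - a ^ 2) with hm
  -- the number `δ`
  have hd : 0 < 2 * a * h + m * p - a * (4 - a ^ 2) * p ^ 2 := by
    have e1 : (1 - a) * (2 * a * h + m * p - a * (4 - a ^ 2) * p ^ 2) =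
        (1 - p) * (2 * a * (1 + a) ^ 2 * (1 - a)) +
        (p - a) * (4 - 10 * a + 6 * a ^ 2 + a ^ 3 - a ^ 4) +
        (1 - a) * (a * (4 - a ^ 2)) * ((p - a) * (1 - p)) := by
      rw [hh, hm]; ring
    have h1 : 0 < 4 - 10 * a + 6 * a ^ 2 + a ^ 3 - a ^ 4 := by
      have : 4 - 10 * a + 6 * a ^ 2 + a ^ 3 - a ^ 4 =
        (1 - 2 * a) * (4 - 2 * a + 2 * a ^ 2) + a ^ 3 * (5 - a) := by ring
      rw [this]
      have h5 : 0 ≤ (1 - 2 * a) * (4 - 2 * a + 2 * a ^ 2) :=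
        mul_nonneg (by linarith) (by nlinarith)
      have h6 : 0 < a ^ 3 * (5 - a) := mul_pos (pow_pos ha 3) (by linarith)
      linarith
    have h2 : 0 < (1 - a) * (2 * a * h + m * p - a * (4 - a ^ 2) * p ^ 2) := by
      rw [e1]
      have h7 : 0 ≤ (1 - p) * (2 * a * (1 + a) ^ 2 * (1 - a)) :=
        mul_nonneg (by linarith) (mul_nonneg (by positivity) (by linarith))
      have h8 : 0 < (p - a) * (4 - 10 * a + 6 * a ^ 2 + a ^ 3 - a ^ 4) :=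
        mul_pos (by linarith) h1
      have h9 : 0 ≤ (1 - a) * (a * (4 - a ^ 2)) * ((p - a) * (1 - p)) :=
        mul_nonneg (mul_nonneg (by linarith) (mul_nonneg ha.le h4.le))
          (mul_nonneg (by linarith) (by linarith))
      linarith
    exact pos_of_mul_pos_right h2 (by linarith)
  set δ := 2 * a * h + m * p - a * (4 - a ^ 2) * p ^ 2 with hδ
  have ht : 0 < 2 * (2 + a ^ 2) * p - 3 * a * (1 + p ^ 2) := by
    have e1 : (1 - a) * (2 * (2 + a ^ 2) * p - 3 * a * (1 + p ^ 2)) =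
        (1 - p) * (a * (1 - a ^ 2)) + (p - a) * (2 * (1 - a) * (2 - a)) +
        (1 - a) * (3 * a) * ((p - a) * (1 - p)) := by ring
    have h2 : 0 < (1 - a) * (2 * (2 + a ^ 2) * p - 3 * a * (1 + p ^ 2)) := by
      rw [e1]
      have h7 : 0 ≤ (1 - p) * (a * (1 - a ^ 2)) :=
        mul_nonneg (by linarith) (mul_nonneg ha.le (by nlinarith))
      have h8 : 0 < (p - a) * (2 * (1 - a) * (2 - a)) :=
        mul_pos (by linarith) (mul_pos (by linarith) (by linarith))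
      have h9 : 0 ≤ (1 - a) * (3 * a) * ((p - a) * (1 - p)) :=
        mul_nonneg (mul_nonneg (by linarith) (by linarith))
          (mul_nonneg (by linarith) (by linarith))
      linarith
    exact pos_of_mul_pos_right h2 (by linarith)
  set t := 2 * (2 + a ^ 2) * p - 3 * a * (1 + p ^ 2) with htd
  set N := -(a * (4 - a ^ 2)) + m * p + 2 * a * h * p ^ 2 with hN
  -- the first step
  set w := (p - a) / (1 - a * p) with hw
  have ew1 : 1 - a / 2 * w = (2 + a ^ 2 - 3 * (a * p)) / (2 * (1 - a * p)) := by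
    rw [hw]; field_simp; ring
  have ew2 : w - a / 2 = ((2 + a ^ 2) * p - 3 * a) / (2 * (1 - a * p)) := by
    rw [hw, eq_div_iff (mul_pos zero_lt_two hap1).ne']
    have h5 : (p - a) / (1 - a * p) * (1 - a * p) = p - a := div_mul_cancel₀ _ hap1.ne'
    linear_combination 2 * h5
  have hwpos : 0 < 1 - a / 2 * w := by
    rw [ew1]; exact div_pos hw3 (by linarith)
  have hrpos : 0 < 1 - a / 2 * r := by
    have := (abs_le.mp hr).2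
    nlinarith
  have hga : |a / 2| ≤ 1 := by rw [abs_of_pos (by linarith)]; linarith
  have hm1 := mono_step hga hp0 hrb hrpos hwpos
  rw [← hr1] at hm1
  set ρ₁ := (w - a / 2) / (p * (1 - a / 2 * w)) with hρ1
  have eρ1 : ρ₁ * (p * (2 + a ^ 2 - 3 * (a * p))) = (2 + a ^ 2) * p - 3 * a := by
    rw [hρ1, ew1, ew2]
    generalize (2 + a ^ 2) * p - 3 * a = Z
    have h1 : 2 + a ^ 2 - 3 * (a * p) ≠ 0 := hw3.ne'
    have h2 : 1 - a * p ≠ 0 := hap1.ne'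
    generalize 2 + a ^ 2 - 3 * (a * p) = X at h1 ⊢
    generalize 1 - a * p = Y at h2 ⊢
    field_simp
  -- the second step
  have hP : 0 < (4 - a ^ 2) * (p * (2 + a ^ 2 - 3 * (a * p))) :=
    mul_pos h4 (mul_pos hp0 hw3)
  have e3 : (1 - g1 * ρ₁) * ((4 - a ^ 2) * (p * (2 + a ^ 2 - 3 * (a * p)))) = 3 * δ := by
    have : (1 - g1 * ρ₁) * ((4 - a ^ 2) * (p * (2 + a ^ 2 - 3 * (a * p)))) =
        (4 - a ^ 2) * (p * (2 + a ^ 2 - 3 * (a * p))) -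
        (g1 * (4 - a ^ 2)) * (ρ₁ * (p * (2 + a ^ 2 - 3 * (a * p)))) := by ring
    rw [this, eρ1, hg1, hδ, hm, hh]
    ring
  have e4 : (ρ₁ - g1) * ((4 - a ^ 2) * (p * (2 + a ^ 2 - 3 * (a * p)))) = 3 * N := by
    have : (ρ₁ - g1) * ((4 - a ^ 2) * (p * (2 + a ^ 2 - 3 * (a * p)))) =
        (4 - a ^ 2) * (ρ₁ * (p * (2 + a ^ 2 - 3 * (a * p)))) -
        (g1 * (4 - a ^ 2)) * (p * (2 + a ^ 2 - 3 * (a * p))) := by ring
    rw [this, eρ1, hg1, hN, hm, hh]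
    ring
  have hq1 : 0 < 1 - g1 * ρ₁ := by
    have h5 : 0 < (1 - g1 * ρ₁) * ((4 - a ^ 2) * (p * (2 + a ^ 2 - 3 * (a * p)))) := by
      rw [e3]; linarith
    exact pos_of_mul_pos_left h5 hP.le
  have hq2 : 0 < 1 - g1 * r1 := by
    have h1 : |g1 * r1| < 1 := by
      rw [abs_mul]
      calc |g1| * |r1| ≤ |g1| * 1 := mul_le_mul_of_nonneg_left hr1b (abs_nonneg g1)
        _ < 1 := by rw [mul_one]; exact hg1l
    have := (abs_lt.mp h1).2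
    linarith
  have hm2 := mono_step hg1l.le hp0 hm1 hq2 hq1
  rw [← hr2] at hm2
  set ρ₂ := (ρ₁ - g1) / (p * (1 - g1 * ρ₁)) with hρ2
  have eρ2 : ρ₂ * (p * δ) = N := by
    have h5 : ρ₂ * (p * (1 - g1 * ρ₁)) = ρ₁ - g1 := by
      rw [hρ2, div_mul_cancel₀]
      exact (mul_pos hp0 hq1).ne'
    have h6 : ρ₂ * (p * (3 * δ)) = 3 * N := by
      rw [← e3, ← e4, ← h5]; ring
    linarith
  -- the third step
  have h10 : g2 - r2 ≤ p * (1 - g2 * r2) := by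
    have := (abs_le.mp hpk).1
    linarith
  have h11 : g2 * (1 + p * ρ₂) ≤ p + ρ₂ := by
    have h12 : 0 ≤ (ρ₂ - r2) * (1 - g2 * p) := by
      apply mul_nonneg (by linarith)
      have := (abs_le.mp hg2).2
      nlinarith
    nlinarith
  have hpd : 0 < p * δ := mul_pos hp0 hd
  have h13 : g2 * (p * δ + p * N) ≤ p * (p * δ) + N := by
    have h14 := mul_le_mul_of_nonneg_right h11 hpd.le
    have h15 : g2 * (1 + p * ρ₂) * (p * δ) = g2 * (p * δ + p * (ρ₂ * (p * δ))) := by ring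
    have h16 : (p + ρ₂) * (p * δ) = p * (p * δ) + ρ₂ * (p * δ) := by ring
    rw [h15, h16, eρ2] at h14
    exact h14
  have e5 : p * δ + p * N = p * (2 - 2 * a - a ^ 2) * t := by
    rw [hδ, hN, hm, hh, htd]; ring
  rw [e5] at h13
  have hgp : 0 ≤ 1 - g1 ^ 2 := by
    have := abs_lt.mp hg1l
    nlinarith
  have hpt : 0 ≤ p * (2 - 2 * a - a ^ 2) * t := (mul_pos (mul_pos hp0 h22) ht).le
  have h17 : (2 * a * k / (4 - a ^ 2) + a / 2 * g1 ^ 2) * (p * (2 - 2 * a - a ^ 2) * t) ≤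
      (1 - g1 ^ 2) * (p * (p * δ) + N) := by
    calc (2 * a * k / (4 - a ^ 2) + a / 2 * g1 ^ 2) * (p * (2 - 2 * a - a ^ 2) * t)
        ≤ g2 * (1 - g1 ^ 2) * (p * (2 - 2 * a - a ^ 2) * t) :=
          mul_le_mul_of_nonneg_right hk hpt
      _ = (1 - g1 ^ 2) * (g2 * (p * (2 - 2 * a - a ^ 2) * t)) := by ring
      _ ≤ _ := mul_le_mul_of_nonneg_left h13 hgp
  have e6 : (2 * a * k / (4 - a ^ 2) + a / 2 * g1 ^ 2) * (4 - a ^ 2) ^ 2 =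
      2 * a * k * (4 - a ^ 2) + 2 * a * h ^ 2 := by
    have : (2 * a * k / (4 - a ^ 2) + a / 2 * g1 ^ 2) * (4 - a ^ 2) ^ 2 =
        2 * a * k / (4 - a ^ 2) * (4 - a ^ 2) * (4 - a ^ 2) +
        a / 2 * (g1 * (4 - a ^ 2)) ^ 2 := by ring
    rw [this, div_mul_cancel₀ _ h4.ne', hg1]
    ring
  have e7 : (1 - g1 ^ 2) * (4 - a ^ 2) ^ 2 =
      3 * (2 - 2 * a - a ^ 2) * (2 + 6 * a + a ^ 2) := by
    have : (1 - g1 ^ 2) * (4 - a ^ 2) ^ 2 = (4 - a ^ 2) ^ 2 - (g1 * (4 - a ^ 2)) ^ 2 := by ring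
    rw [this, hg1, hh]
    ring
  have h18 := mul_le_mul_of_nonneg_right h17 (sq_nonneg (4 - a ^ 2))
  have h19 : (2 * a * k * (4 - a ^ 2) + 2 * a * h ^ 2) * (p * (2 - 2 * a - a ^ 2) * t) ≤
      3 * (2 - 2 * a - a ^ 2) * (2 + 6 * a + a ^ 2) * (p * (p * δ) + N) := by
    rw [← e6, ← e7]
    linarith
  have h20 : (2 - 2 * a - a ^ 2) * ((2 * k * (4 - a ^ 2) + 2 * h ^ 2) * a * p * t) ≤
      (2 - 2 * a - a ^ 2) * (3 * (2 + 6 * a + a ^ 2) * (p * (p * δ) + N)) := by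
    linarith
  have h21 := le_of_mul_le_mul_left h20 h22
  have e8 : p * (p * δ) + N = -(a * (4 - a ^ 2)) * (1 + p ^ 4) + m * (p + p ^ 3) +
      4 * a * h * p ^ 2 := by
    rw [hδ, hN]; ring
  rw [e8] at h21
  exact h21

theorem pth0 {a : ℝ} (h1 : 0 ≤ a) (h2 : a ≤ 1 / 4) :
    0 < 1 - 2 * a - 9 * a ^ 2 + 19 * a ^ 3 + 2 * a ^ 4 - 2 * a ^ 5 := by
  obtain ⟨x, hx⟩ : ∃ x, x = a - 0 := ⟨_, rfl⟩
  obtain ⟨y, hy⟩ : ∃ y, y = 1 / 4 - a := ⟨_, rfl⟩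
  have hx0 : 0 ≤ x := by rw [hx]; linarith
  have hy0 : 0 ≤ y := by rw [hy]; linarith
  have e : 1 - 2 * a - 9 * a ^ 2 + 19 * a ^ 3 + 2 * a ^ 4 - 2 * a ^ 5 - 1 / 1000 =
      (127872 / 125) * (x ^ 0 * y ^ 5) +
      (115072 / 25) * (x ^ 1 * y ^ 4) +
      (190144 / 25) * (x ^ 2 * y ^ 3) +
      (143344 / 25) * (x ^ 3 * y ^ 2) +
      (48872 / 25) * (x ^ 4 * y ^ 1) +
      (30622 / 125) * (x ^ 5 * y ^ 0) := by
    rw [hx, hy]; ring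
  have e2 : 0 ≤ 1 - 2 * a - 9 * a ^ 2 + 19 * a ^ 3 + 2 * a ^ 4 - 2 * a ^ 5 - 1 / 1000 := by
    rw [e]; positivity
  linarith

theorem pth1 {a : ℝ} (h1 : 1 / 4 ≤ a) (h2 : a ≤ 3 / 8) :
    0 < 1 - 2 * a - 9 * a ^ 2 + 19 * a ^ 3 + 2 * a ^ 4 - 2 * a ^ 5 := by
  obtain ⟨x, hx⟩ : ∃ x, x = a - 1 / 4 := ⟨_, rfl⟩
  obtain ⟨y, hy⟩ : ∃ y, y = 3 / 8 - a := ⟨_, rfl⟩
  have hx0 : 0 ≤ x := by rw [hx]; linarith
  have hy0 : 0 ≤ y := by rw [hy]; linarith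
  have e : 1 - 2 * a - 9 * a ^ 2 + 19 * a ^ 3 + 2 * a ^ 4 - 2 * a ^ 5 - 1 / 1000 =
      (979904 / 125) * (x ^ 0 * y ^ 5) +
      (687904 / 25) * (x ^ 1 * y ^ 4) +
      (864608 / 25) * (x ^ 2 * y ^ 3) +
      (457808 / 25) * (x ^ 3 * y ^ 2) +
      (93404 / 25) * (x ^ 4 * y ^ 1) +
      (41154 / 125) * (x ^ 5 * y ^ 0) := by
    rw [hx, hy]; ring
  have e2 : 0 ≤ 1 - 2 * a - 9 * a ^ 2 + 19 * a ^ 3 + 2 * a ^ 4 - 2 * a ^ 5 - 1 / 1000 := by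
    rw [e]; positivity
  linarith

theorem pth2 {a : ℝ} (h1 : 3 / 8 ≤ a) (h2 : a ≤ 7 / 16) :
    0 < 1 - 2 * a - 9 * a ^ 2 + 19 * a ^ 3 + 2 * a ^ 4 - 2 * a ^ 5 := by
  obtain ⟨x, hx⟩ : ∃ x, x = a - 3 / 8 := ⟨_, rfl⟩
  obtain ⟨y, hy⟩ : ∃ y, y = 7 / 16 - a := ⟨_, rfl⟩
  have hx0 : 0 ≤ x := by rw [hx]; linarith
  have hy0 : 0 ≤ y := by rw [hy]; linarith
  have e : 1 - 2 * a - 9 * a ^ 2 + 19 * a ^ 3 + 2 * a ^ 4 - 2 * a ^ 5 - 1 / 1000 =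
      (1316928 / 125) * (x ^ 0 * y ^ 5) +
      (480928 / 25) * (x ^ 1 * y ^ 4) +
      (621856 / 25) * (x ^ 2 * y ^ 3) +
      (1736656 / 25) * (x ^ 3 * y ^ 2) +
      (2213828 / 25) * (x ^ 4 * y ^ 1) +
      (4407178 / 125) * (x ^ 5 * y ^ 0) := by
    rw [hx, hy]; ring
  have e2 : 0 ≤ 1 - 2 * a - 9 * a ^ 2 + 19 * a ^ 3 + 2 * a ^ 4 - 2 * a ^ 5 - 1 / 1000 := by
    rw [e]; positivity
  linarith

theorem pth3 {a : ℝ} (h1 : 7 / 16 ≤ a) (h2 : a ≤ 1 / 2) :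
    0 < 1 - 2 * a - 9 * a ^ 2 + 19 * a ^ 3 + 2 * a ^ 4 - 2 * a ^ 5 := by
  obtain ⟨x, hx⟩ : ∃ x, x = a - 7 / 16 := ⟨_, rfl⟩
  obtain ⟨y, hy⟩ : ∃ y, y = 1 / 2 - a := ⟨_, rfl⟩
  have hx0 : 0 ≤ x := by rw [hx]; linarith
  have hy0 : 0 ≤ y := by rw [hy]; linarith
  have e : 1 - 2 * a - 9 * a ^ 2 + 19 * a ^ 3 + 2 * a ^ 4 - 2 * a ^ 5 - 1 / 1000 =
      (4407178 / 125) * (x ^ 0 * y ^ 5) +
      (6600528 / 25) * (x ^ 1 * y ^ 4) +
      (19283456 / 25) * (x ^ 2 * y ^ 3) +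
      (27181056 / 25) * (x ^ 3 * y ^ 2) +
      (18505728 / 25) * (x ^ 4 * y ^ 1) +
      (24444928 / 125) * (x ^ 5 * y ^ 0) := by
    rw [hx, hy]; ring
  have e2 : 0 ≤ 1 - 2 * a - 9 * a ^ 2 + 19 * a ^ 3 + 2 * a ^ 4 - 2 * a ^ 5 - 1 / 1000 := by
    rw [e]; positivity
  linarith

theorem pps0 {a : ℝ} (h1 : 0 ≤ a) (h2 : a ≤ 1 / 4) :
    0 < 4 + 4 * a - 43 * a ^ 2 - 44 * a ^ 3 + 106 * a ^ 4 + 148 * a ^ 5 - 6 * a ^ 6 - 6 * a ^ 7 + 11 * a ^ 8 + 6 * a ^ 9 := by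
  obtain ⟨x, hx⟩ : ∃ x, x = a - 0 := ⟨_, rfl⟩
  obtain ⟨y, hy⟩ : ∃ y, y = 1 / 4 - a := ⟨_, rfl⟩
  have hx0 : 0 ≤ x := by rw [hx]; linarith
  have hy0 : 0 ≤ y := by rw [hy]; linarith
  have e : 4 + 4 * a - 43 * a ^ 2 - 44 * a ^ 3 + 106 * a ^ 4 + 148 * a ^ 5 - 6 * a ^ 6 - 6 * a ^ 7 + 11 * a ^ 8 + 6 * a ^ 9 - 1 / 1000 =
      (131039232 / 125) * (x ^ 0 * y ^ 9) +
      (1212121088 / 125) * (x ^ 1 * y ^ 8) +
      (4891492352 / 125) * (x ^ 2 * y ^ 7) +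
      (11285823488 / 125) * (x ^ 3 * y ^ 6) +
      (16375007232 / 125) * (x ^ 4 * y ^ 5) +
      (15457119232 / 125) * (x ^ 5 * y ^ 4) +
      (9464079488 / 125) * (x ^ 6 * y ^ 3) +
      (3611592352 / 125) * (x ^ 7 * y ^ 2) +
      (776502588 / 125) * (x ^ 8 * y ^ 1) +
      (71465482 / 125) * (x ^ 9 * y ^ 0) := by
    rw [hx, hy]; ring
  have e2 : 0 ≤ 4 + 4 * a - 43 * a ^ 2 - 44 * a ^ 3 + 106 * a ^ 4 + 148 * a ^ 5 - 6 * a ^ 6 - 6 * a ^ 7 + 11 * a ^ 8 + 6 * a ^ 9 - 1 / 1000 := by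
    rw [e]; positivity
  linarith

theorem pps1 {a : ℝ} (h1 : 1 / 4 ≤ a) (h2 : a ≤ 3 / 8) :
    0 < 4 + 4 * a - 43 * a ^ 2 - 44 * a ^ 3 + 106 * a ^ 4 + 148 * a ^ 5 - 6 * a ^ 6 - 6 * a ^ 7 + 11 * a ^ 8 + 6 * a ^ 9 := by
  obtain ⟨x, hx⟩ : ∃ x, x = a - 1 / 4 := ⟨_, rfl⟩
  obtain ⟨y, hy⟩ : ∃ y, y = 3 / 8 - a := ⟨_, rfl⟩
  have hx0 : 0 ≤ x := by rw [hx]; linarith
  have hy0 : 0 ≤ y := by rw [hy]; linarith
  have e : 4 + 4 * a - 43 * a ^ 2 - 44 * a ^ 3 + 106 * a ^ 4 + 148 * a ^ 5 - 6 * a ^ 6 - 6 * a ^ 7 + 11 * a ^ 8 + 6 * a ^ 9 - 1 / 1000 =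
      (36590326784 / 125) * (x ^ 0 * y ^ 9) +
      (295184749056 / 125) * (x ^ 1 * y ^ 8) +
      (1040684340224 / 125) * (x ^ 2 * y ^ 7) +
      (2098202937856 / 125) * (x ^ 3 * y ^ 6) +
      (2655982054784 / 125) * (x ^ 4 * y ^ 5) +
      (2178340430784 / 125) * (x ^ 5 * y ^ 4) +
      (1150407201856 / 125) * (x ^ 6 * y ^ 3) +
      (374405672224 / 125) * (x ^ 7 * y ^ 2) +
      (67633509556 / 125) * (x ^ 8 * y ^ 1) +
      (5163644034 / 125) * (x ^ 9 * y ^ 0) := by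
    rw [hx, hy]; ring
  have e2 : 0 ≤ 4 + 4 * a - 43 * a ^ 2 - 44 * a ^ 3 + 106 * a ^ 4 + 148 * a ^ 5 - 6 * a ^ 6 - 6 * a ^ 7 + 11 * a ^ 8 + 6 * a ^ 9 - 1 / 1000 := by
    rw [e]; positivity
  linarith

theorem pps2 {a : ℝ} (h1 : 3 / 8 ≤ a) (h2 : a ≤ 7 / 16) :
    0 < 4 + 4 * a - 43 * a ^ 2 - 44 * a ^ 3 + 106 * a ^ 4 + 148 * a ^ 5 - 6 * a ^ 6 - 6 * a ^ 7 + 11 * a ^ 8 + 6 * a ^ 9 := by
  obtain ⟨x, hx⟩ : ∃ x, x = a - 3 / 8 := ⟨_, rfl⟩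
  obtain ⟨y, hy⟩ : ∃ y, y = 7 / 16 - a := ⟨_, rfl⟩
  have hx0 : 0 ≤ x := by rw [hx]; linarith
  have hy0 : 0 ≤ y := by rw [hy]; linarith
  have e : 4 + 4 * a - 43 * a ^ 2 - 44 * a ^ 3 + 106 * a ^ 4 + 148 * a ^ 5 - 6 * a ^ 6 - 6 * a ^ 7 + 11 * a ^ 8 + 6 * a ^ 9 - 1 / 1000 =
      (2643785745408 / 125) * (x ^ 0 * y ^ 9) +
      (18376929116672 / 125) * (x ^ 1 * y ^ 8) +
      (54300430066688 / 125) * (x ^ 2 * y ^ 7) +
      (88295179254272 / 125) * (x ^ 3 * y ^ 6) +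
      (85502957121408 / 125) * (x ^ 4 * y ^ 5) +
      (50335460137408 / 125) * (x ^ 5 * y ^ 4) +
      (18730854654272 / 125) * (x ^ 6 * y ^ 3) +
      (5712990342688 / 125) * (x ^ 7 * y ^ 2) +
      (1949898011172 / 125) * (x ^ 8 * y ^ 1) +
      (407366748658 / 125) * (x ^ 9 * y ^ 0) := by
    rw [hx, hy]; ring
  have e2 : 0 ≤ 4 + 4 * a - 43 * a ^ 2 - 44 * a ^ 3 + 106 * a ^ 4 + 148 * a ^ 5 - 6 * a ^ 6 - 6 * a ^ 7 + 11 * a ^ 8 + 6 * a ^ 9 - 1 / 1000 := by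
    rw [e]; positivity
  linarith

theorem pps3 {a : ℝ} (h1 : 7 / 16 ≤ a) (h2 : a ≤ 1 / 2) :
    0 < 4 + 4 * a - 43 * a ^ 2 - 44 * a ^ 3 + 106 * a ^ 4 + 148 * a ^ 5 - 6 * a ^ 6 - 6 * a ^ 7 + 11 * a ^ 8 + 6 * a ^ 9 := by
  obtain ⟨x, hx⟩ : ∃ x, x = a - 7 / 16 := ⟨_, rfl⟩
  obtain ⟨y, hy⟩ : ∃ y, y = 1 / 2 - a := ⟨_, rfl⟩
  have hx0 : 0 ≤ x := by rw [hx]; linarith
  have hy0 : 0 ≤ y := by rw [hy]; linarith
  have e : 4 + 4 * a - 43 * a ^ 2 - 44 * a ^ 3 + 106 * a ^ 4 + 148 * a ^ 5 - 6 * a ^ 6 - 6 * a ^ 7 + 11 * a ^ 8 + 6 * a ^ 9 - 1 / 1000 =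
      (407366748658 / 125) * (x ^ 0 * y ^ 9) +
      (5382703464672 / 125) * (x ^ 1 * y ^ 8) +
      (33175433970688 / 125) * (x ^ 2 * y ^ 7) +
      (116612887990272 / 125) * (x ^ 3 * y ^ 6) +
      (253153449361408 / 125) * (x ^ 4 * y ^ 5) +
      (352254619025408 / 125) * (x ^ 5 * y ^ 4) +
      (315814179766272 / 125) * (x ^ 6 * y ^ 3) +
      (176889620594688 / 125) * (x ^ 7 * y ^ 2) +
      (56432548380672 / 125) * (x ^ 8 * y ^ 1) +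
      (7843147153408 / 125) * (x ^ 9 * y ^ 0) := by
    rw [hx, hy]; ring
  have e2 : 0 ≤ 4 + 4 * a - 43 * a ^ 2 - 44 * a ^ 3 + 106 * a ^ 4 + 148 * a ^ 5 - 6 * a ^ 6 - 6 * a ^ 7 + 11 * a ^ 8 + 6 * a ^ 9 - 1 / 1000 := by
    rw [e]; positivity
  linarith

/-- The bound in the parameter `θ`. -/
theorem pth {a : ℝ} (h0 : 0 ≤ a) (h1 : a ≤ 1 / 2) :
    0 < 1 - 2 * a - 9 * a ^ 2 + 19 * a ^ 3 + 2 * a ^ 4 - 2 * a ^ 5 := by
  rcases le_total a (1 / 4) with h | h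
  · exact pth0 h0 h
  rcases le_total a (3 / 8) with h2 | h2
  · exact pth1 h h2
  rcases le_total a (7 / 16) with h3 | h3
  · exact pth2 h2 h3
  · exact pth3 h3 h1

theorem pps {a : ℝ} (h0 : 0 ≤ a) (h1 : a ≤ 1 / 2) :
    0 < 4 + 4 * a - 43 * a ^ 2 - 44 * a ^ 3 + 106 * a ^ 4 + 148 * a ^ 5 - 6 * a ^ 6 -
      6 * a ^ 7 + 11 * a ^ 8 + 6 * a ^ 9 := by
  rcases le_total a (1 / 4) with h | h
  · exact pps0 h0 h
  rcases le_total a (3 / 8) with h2 | h2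
  · exact pps1 h h2
  rcases le_total a (7 / 16) with h3 | h3
  · exact pps2 h2 h3
  · exact pps3 h3 h1

/-- `θ` form: the final inequality is false. -/
theorem fin_th {a : ℝ} (ha : 0 < a) (ha2 : a ≤ 1 / 2) {p : ℝ} (hp : p * (1 - a) = a) :
    3 * (2 + 6 * a + a ^ 2) * (-(a * (4 - a ^ 2)) * (1 + p ^ 4) +
        (2 + a ^ 2) * (2 - 2 * a - a ^ 2) * (p + p ^ 3) + 4 * a * (a ^ 2 + 3 * a - 1) * p ^ 2) <
    (2 * ((1 + a) * (2 + a)) * (4 - a ^ 2) + 2 * (a ^ 2 + 3 * a - 1) ^ 2) * a * p *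
        (2 * (2 + a ^ 2) * p - 3 * a * (1 + p ^ 2)) := by
  have h1a : 0 < 1 - a := by linarith
  have h4 : 0 < 4 - a ^ 2 := by nlinarith
  have hpe : p = a / (1 - a) := by rw [eq_div_iff h1a.ne']; exact hp
  have key := pth ha.le ha2
  have e : ((2 * ((1 + a) * (2 + a)) * (4 - a ^ 2) + 2 * (a ^ 2 + 3 * a - 1) ^ 2) * a * p *
        (2 * (2 + a ^ 2) * p - 3 * a * (1 + p ^ 2)) -
      3 * (2 + 6 * a + a ^ 2) * (-(a * (4 - a ^ 2)) * (1 + p ^ 4) +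
        (2 + a ^ 2) * (2 - 2 * a - a ^ 2) * (p + p ^ 3) + 4 * a * (a ^ 2 + 3 * a - 1) * p ^ 2)) *
        (1 - a) ^ 4 =
      3 * (a ^ 3 * (4 - a ^ 2) * (1 - 2 * a - 9 * a ^ 2 + 19 * a ^ 3 + 2 * a ^ 4 - 2 * a ^ 5)) := by
    rw [hpe]
    field_simp
    ring
  have h5 : 0 < 3 * (a ^ 3 * (4 - a ^ 2) *
      (1 - 2 * a - 9 * a ^ 2 + 19 * a ^ 3 + 2 * a ^ 4 - 2 * a ^ 5)) := by positivity
  rw [← e] at h5
  have h6 := pos_of_mul_pos_left h5 (pow_pos h1a 4).le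
  linarith

/-- `ψ` form: the final inequality is false. -/
theorem fin_ps {a : ℝ} (ha : 0 < a) (ha2 : a ≤ 1 / 2) {p : ℝ} (hp0 : 0 < p) (hp1 : p ≤ 1)
    (hp : a * (1 - p ^ 2) = p * (1 - a - a ^ 2)) :
    3 * (2 + 6 * a + a ^ 2) * (-(a * (4 - a ^ 2)) * (1 + p ^ 4) +
        (2 + a ^ 2) * (2 - 2 * a - a ^ 2) * (p + p ^ 3) + 4 * a * (a ^ 2 + 3 * a - 1) * p ^ 2) <
    (2 * (2 + a ^ 2) * (4 - a ^ 2) + 2 * (a ^ 2 + 3 * a - 1) ^ 2) * a * p *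
        (2 * (2 + a ^ 2) * p - 3 * a * (1 + p ^ 2)) := by
  have h4 : 0 < 4 - a ^ 2 := by nlinarith
  have key := pps ha.le ha2
  have e : (2 * (2 + a ^ 2) * (4 - a ^ 2) + 2 * (a ^ 2 + 3 * a - 1) ^ 2) * a * p *
        (2 * (2 + a ^ 2) * p - 3 * a * (1 + p ^ 2)) -
      3 * (2 + 6 * a + a ^ 2) * (-(a * (4 - a ^ 2)) * (1 + p ^ 4) +
        (2 + a ^ 2) * (2 - 2 * a - a ^ 2) * (p + p ^ 3) + 4 * a * (a ^ 2 + 3 * a - 1) * p ^ 2) =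
      3 * (4 - a ^ 2) * ((2 * a + 6 * a ^ 2 + a ^ 3) * (1 + p ^ 4) -
        (2 + 4 * a - 4 * a ^ 3 + a ^ 4) * (p + p ^ 3) +
        (8 * a - 4 * a ^ 2 - 8 * a ^ 3 - 8 * a ^ 4) * p ^ 2) := by
    ring
  have hsq : a ^ 2 * (1 + p ^ 2) ^ 2 = p ^ 2 * ((1 - a - a ^ 2) ^ 2 + 4 * a ^ 2) := by
    have : (a * (1 - p ^ 2)) ^ 2 = (p * (1 - a - a ^ 2)) ^ 2 := by rw [hp]
    linear_combination this
  have h14 : a ^ 2 * (1 + p ^ 4) = p ^ 2 * ((1 - a - a ^ 2) ^ 2 + 2 * a ^ 2) := by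
    linear_combination hsq
  -- `U`
  have hU : a * ((2 * a + 6 * a ^ 2 + a ^ 3) * (1 + p ^ 4) +
      (8 * a - 4 * a ^ 2 - 8 * a ^ 3 - 8 * a ^ 4) * p ^ 2) =
      p ^ 2 * (2 + 2 * a - a ^ 2 + 4 * a ^ 3 + 7 * a ^ 4 + a ^ 6) := by
    linear_combination (2 + 6 * a + a ^ 2) * h14
  have hUpos : 0 < 2 + 2 * a - a ^ 2 + 4 * a ^ 3 + 7 * a ^ 4 + a ^ 6 := by
    have : 0 < 2 + a * (2 - a) + 4 * a ^ 3 + 7 * a ^ 4 + a ^ 6 := by
      have h5 : 0 < 2 - a := by linarith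
      positivity
    linarith
  have hW : 0 < 2 + 4 * a - 4 * a ^ 3 + a ^ 4 := by
    have : 0 < 2 + 4 * (a * (1 - a ^ 2)) + a ^ 4 := by
      have h5 : 0 < 1 - a ^ 2 := by nlinarith
      positivity
    linarith
  have hlt : (2 + 4 * a - 4 * a ^ 3 + a ^ 4) * (a * (1 + p ^ 2)) <
      p * (2 + 2 * a - a ^ 2 + 4 * a ^ 3 + 7 * a ^ 4 + a ^ 6) := by
    have h6 : 0 ≤ p * (2 + 2 * a - a ^ 2 + 4 * a ^ 3 + 7 * a ^ 4 + a ^ 6) :=
      (mul_pos hp0 hUpos).le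
    refine lt_of_pow_lt_pow_left₀ 2 h6 ?_
    have e2 : (p * (2 + 2 * a - a ^ 2 + 4 * a ^ 3 + 7 * a ^ 4 + a ^ 6)) ^ 2 -
        ((2 + 4 * a - 4 * a ^ 3 + a ^ 4) * (a * (1 + p ^ 2))) ^ 2 =
        p ^ 2 * (a ^ 2 * (4 + 4 * a - 43 * a ^ 2 - 44 * a ^ 3 + 106 * a ^ 4 + 148 * a ^ 5 -
          6 * a ^ 6 - 6 * a ^ 7 + 11 * a ^ 8 + 6 * a ^ 9)) := by
      linear_combination (-(2 + 4 * a - 4 * a ^ 3 + a ^ 4) ^ 2) * hsq
    have h7 : 0 < p ^ 2 * (a ^ 2 * (4 + 4 * a - 43 * a ^ 2 - 44 * a ^ 3 + 106 * a ^ 4 +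
        148 * a ^ 5 - 6 * a ^ 6 - 6 * a ^ 7 + 11 * a ^ 8 + 6 * a ^ 9)) :=
      mul_pos (pow_pos hp0 2) (mul_pos (pow_pos ha 2) key)
    linarith
  have h8 : 0 < a * ((2 * a + 6 * a ^ 2 + a ^ 3) * (1 + p ^ 4) -
        (2 + 4 * a - 4 * a ^ 3 + a ^ 4) * (p + p ^ 3) +
        (8 * a - 4 * a ^ 2 - 8 * a ^ 3 - 8 * a ^ 4) * p ^ 2) := by
    have h9 := mul_lt_mul_of_pos_left hlt hp0
    nlinarith [hU]
  have h10 := pos_of_mul_pos_right h8 ha.le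
  have h11 : 0 < 3 * (4 - a ^ 2) * ((2 * a + 6 * a ^ 2 + a ^ 3) * (1 + p ^ 4) -
        (2 + 4 * a - 4 * a ^ 3 + a ^ 4) * (p + p ^ 3) +
        (8 * a - 4 * a ^ 2 - 8 * a ^ 3 - 8 * a ^ 4) * p ^ 2) :=
    mul_pos (by linarith) h10
  rw [← e] at h11
  linarith

/-! ## Row I3 -/

/-- The common part of the two forms. -/
theorem Loc.car_k {Q f : ℤ[X]} {a : ℝ} (h : Loc Q f a) (ha2 : a ≤ 1 / 2) (hu : f.coeff 0 = 1)
    (hcar : ∀ z : ℂ, ‖z‖ = 1 → ‖aeval z Q + 3 * (z * aeval z f)‖ ≤ 2 * ‖aeval z Q‖) {p : ℝ}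
    (hap : a < p) (hp1 : p ≤ 1) (hV : (aeval p Q : ℝ) + p * aeval p f ≤ 0) {n : ℤ}
    (hn : n = f.coeff 1 - Q.coeff 1) {k : ℝ}
    (hk : k ≤ 3 * n - 3 * (a⁻¹ - a) - a * (a⁻¹ - a)) :
    (2 * k * (4 - a ^ 2) + 2 * (a ^ 2 + 3 * a - 1) ^ 2) * a * p *
        (2 * (2 + a ^ 2) * p - 3 * a * (1 + p ^ 2)) ≤
      3 * (2 + 6 * a + a ^ 2) * (-(a * (4 - a ^ 2)) * (1 + p ^ 4) +
        (2 + a ^ 2) * (2 - 2 * a - a ^ 2) * (p + p ^ 3) + 4 * a * (a ^ 2 + 3 * a - 1) * p ^ 2) := by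
  have ha := h.a0
  have h4 : 0 < 4 - a ^ 2 := by nlinarith
  set g1 := 2 * (a ^ 2 + 3 * a - 1) / (4 - a ^ 2) with hg1d
  have hg1 : g1 * (4 - a ^ 2) = 2 * (a ^ 2 + 3 * a - 1) := by
    rw [hg1d, div_mul_cancel₀ _ h4.ne']
  have hg1l : |g1| < 1 := by
    rw [hg1d, abs_div, abs_of_pos h4, div_lt_one h4, abs_lt]
    constructor <;> nlinarith
  obtain ⟨r, r1, r2, g2, e1, e2, e3, e4, e5, -, e7, e8, e9⟩ :=
    h.car3 hu hcar hap hp1 hV hn hg1 hg1l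
  refine car_num ha ha2 hap hp1 hg1 hg1l e1 e2 e3 e4 e5 e7 e8 ?_
  rw [e9]
  have h5 : 2 * a * k / (4 - a ^ 2) ≤
      2 * a * (3 * n - 3 * (a⁻¹ - a) - a * (a⁻¹ - a)) / (4 - a ^ 2) := by
    rw [div_le_div_iff_of_pos_right h4]
    exact mul_le_mul_of_nonneg_left hk (by linarith)
  linarith

/-- **Row I3**, `θ` form: cardioid, `u = 1`, `θ ≥ 2`, `n ≥ θ + 1`: the closed coefficient is positive
at `1/(θ - 1)`, that is `θ_B ≤ θ - 1` or no zero in the disc. -/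
theorem Loc.i3_theta {Q f : ℤ[X]} {a : ℝ} (h : Loc Q f a) (ha2 : a ≤ 1 / 2) (hu : f.coeff 0 = 1)
    (hcar : ∀ z : ℂ, ‖z‖ = 1 → ‖aeval z Q + 3 * (z * aeval z f)‖ ≤ 2 * ‖aeval z Q‖) {n : ℤ}
    (hn : n = f.coeff 1 - Q.coeff 1) (hn1 : a⁻¹ + 1 ≤ n) {p : ℝ} (hp : p * (1 - a) = a) :
    0 < (aeval p Q : ℝ) + p * aeval p f := by
  by_contra hV
  push Not at hV
  have ha := h.a0
  have h1a : 0 < 1 - a := by linarith
  have hpe : p = a / (1 - a) := by rw [eq_div_iff h1a.ne']; exact hp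
  have hp1 : p ≤ 1 := by rw [hpe, div_le_one h1a]; linarith
  have hap : a < p := by rw [hpe, lt_div_iff₀ h1a]; nlinarith
  have h1 := h.car_k ha2 hu hcar hap hp1 hV hn (k := (1 + a) * (2 + a)) (by
    have : a * a⁻¹ = 1 := mul_inv_cancel₀ ha.ne'
    nlinarith)
  have h2 := fin_th ha ha2 hp
  linarith

/-- **Row I3**, `ψ` form, `ψ(x) = x - 1/x`: `n ≥ ψ + 1` implies `ψ(θ_B) ≤ ψ(θ) - 1`. -/
theorem Loc.i3_psi {Q f : ℤ[X]} {a : ℝ} (h : Loc Q f a) (ha2 : a ≤ 1 / 2) (hu : f.coeff 0 = 1)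
    (hcar : ∀ z : ℂ, ‖z‖ = 1 → ‖aeval z Q + 3 * (z * aeval z f)‖ ≤ 2 * ‖aeval z Q‖) {n : ℤ}
    (hn : n = f.coeff 1 - Q.coeff 1) (hn1 : a⁻¹ - a + 1 ≤ n) {p : ℝ} (hp0 : 0 < p)
    (hp : p⁻¹ - p = a⁻¹ - a - 1) :
    0 < (aeval p Q : ℝ) + p * aeval p f := by
  by_contra hV
  push Not at hV
  have ha := h.a0
  have hpi : p * p⁻¹ = 1 := mul_inv_cancel₀ hp0.ne'
  have hai : a * a⁻¹ = 1 := mul_inv_cancel₀ ha.ne'
  have hrel : a * (1 - p ^ 2) = p * (1 - a - a ^ 2) := by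
    have h1 : a * (p * (p⁻¹ - p)) = p * (a * (a⁻¹ - a - 1)) := by rw [hp]; ring
    linear_combination h1 - a * hpi + p * hai
  have h1aa : 0 < 1 - a - a ^ 2 := by nlinarith
  have hp1 : p ≤ 1 := by
    by_contra hcon
    push Not at hcon
    have h1 : a * (1 - p ^ 2) < 0 := mul_neg_of_pos_of_neg ha (by nlinarith)
    have h2 : 0 < p * (1 - a - a ^ 2) := mul_pos hp0 h1aa
    linarith
  have hap : a < p := by
    by_contra hcon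
    push Not at hcon
    have h1 : p * (1 - a - a ^ 2) < a * (1 - p ^ 2) := by
      have h2 : p ^ 2 ≤ a ^ 2 := by nlinarith
      nlinarith
    linarith
  have h1 := h.car_k ha2 hu hcar hap hp1 hV hn (k := 2 + a ^ 2) (by nlinarith)
  have h2 := fin_ps ha ha2 hp0 hp1 hrel
  linarith

/-- Row I3 in the form of the editor. -/
theorem i3 (Q f : ℤ[X]) (a : ℝ) (h : Loc Q f a)
    (hc : ∀ z : ℂ, ‖z‖ = 1 → ‖aeval z (Q + 3 * X * f)‖ ≤ 2 * ‖aeval z Q‖)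
    (hu : f.coeff 0 = 1) (ha : a < 1 / 2) (hn : 1 / a + 1 ≤ (f.coeff 1 : ℝ) - Q.coeff 1) :
    0 ≤ (aeval (a / (1 - a)) Q : ℝ) + a / (1 - a) * aeval (a / (1 - a)) f := by
  refine (h.i3_theta ha.le hu ?_ (n := f.coeff 1 - Q.coeff 1) rfl ?_ ?_).le
  · intro z hz
    have h1 := hc z hz
    have h2 : aeval z (Q + 3 * X * f) = aeval z Q + 3 * (z * aeval z f) := by
      simp only [map_add, map_mul, aeval_X, map_ofNat]
      ring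
    rwa [h2] at h1
  · push_cast
    rw [one_div] at hn
    exact hn
  · have : 1 - a ≠ 0 := by
      have := h.a1
      intro h0
      linarith
    rw [div_mul_cancel₀ _ this]

/-- Row I3, `ψ` form. -/
theorem i3_psi (Q f : ℤ[X]) (a : ℝ) (h : Loc Q f a)
    (hc : ∀ z : ℂ, ‖z‖ = 1 → ‖aeval z (Q + 3 * X * f)‖ ≤ 2 * ‖aeval z Q‖)
    (hu : f.coeff 0 = 1) (ha : a ≤ 1 / 2) (hn : 1 / a - a + 1 ≤ (f.coeff 1 : ℝ) - Q.coeff 1)
    {p : ℝ} (hp0 : 0 < p) (hp : 1 / p - p = 1 / a - a - 1) :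
    0 < (aeval p Q : ℝ) + p * aeval p f := by
  refine h.i3_psi ha hu ?_ (n := f.coeff 1 - Q.coeff 1) rfl ?_ hp0 ?_
  · intro z hz
    have h1 := hc z hz
    have h2 : aeval z (Q + 3 * X * f) = aeval z Q + 3 * (z * aeval z f) := by
      simp only [map_add, map_mul, aeval_X, map_ofNat]
      ring
    rwa [h2] at h1
  · push_cast
    rw [one_div] at hn
    exact hn
  · rw [one_div, one_div] at hp
    exact hp

end Pool.Agent.B5.Nr.Sch
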